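import Pool.Agent.H94.QV3

set_option autoImplicit false

namespace Pool.Agent.Results.MP_6d9676_an.Infinite
open Pool.Agent.H94.QV MeasureTheory

theorem result (B : ℝ) : ∃ A : ℝ, ∀ a, A ≤ a → ∀ u : ℝ → ℝ, Sol4 a u →
    (Integrable fun x : EuclideanSpace ℝ (Fin 4) => Real.exp (4 * u ‖x‖)) ∧
      B ≤ ∫ x : EuclideanSpace ℝ (Fin 4), Real.exp (4 * u ‖x‖) := by
  have p : 0 < (volume : Measure (EuclideanSpace ℝ (Fin 4))).real (Metric.ball 0 1) :=
    ENNReal.toReal_pos (Metric.measure_ball_pos _ _ one_pos).ne' measure_ball_lt_top.ne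
  generalize hc : (volume : Measure (EuclideanSpace ℝ (Fin 4))).real (Metric.ball 0 1) = c at p
  refine ⟨3 * Real.exp (2 * (|B| + 1) / c) + 1, fun a ha u h => ?_⟩
  obtain ⟨v, d, k, e, h0, h1⟩ := h.ch
  have i := Ch.int (m := 1) k
  have b := big k h0 (T := 2 * (|B| + 1) / c) (by positivity) (by linarith)
  simp only [e, mul_left_comm _ (24 : ℝ)] at i b
  rw [integrable_fun_norm_addHaar volume (f := fun r => Real.exp (4 * u r)),
    integral_fun_norm_addHaar volume (fun r => Real.exp (4 * u r)), finrank_euclideanSpace_fin, hc]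
  refine ⟨(integrable_const_mul_iff (c := (24 : ℝ)) (by simp) _).1 i, ?_⟩
  rw [integral_const_mul, ← mul_div_assoc, div_le_iff₀ p] at b
  simp only [nsmul_eq_mul, smul_eq_mul, show 4 - 1 = 3 from rfl]
  push_cast
  linarith [le_abs_self B, abs_nonneg B]

end Pool.Agent.Results.MP_6d9676_an.Infinite
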